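import Pool.Agent.V11272.GR.Ind

set_option autoImplicit false

/-!
# The girth of the reconfiguration graph of minimal dominating sets

For a finite graph `G` let `R(G)` be the graph on the minimal dominating sets of `G` in which two sets are
adjacent when one arises from the other by replacing a single vertex `v` by some of its neighbours.

We prove that `R(G)` has girth at most `5` whenever it contains a cycle (Q1 in the affirmative), and that it
contains a cycle except in the trivial case where all edges of `G` pass through one vertex.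

Idea of the proof.  If `X` is an independent set, then `M ↦ M ∪ X` embeds `R(G - N[X])` in `R(G)`, so in a
minimal counterexample the non-neighbourhood `G - N[v]` of every vertex `v` is a star plus isolated vertices.
If all of them are edgeless, `G` is complete multipartite, and one finds a cycle of length 3 or 4.  Otherwise
one takes `v`, `c` with `c` the centre of a star with leaves `L` in `G - N[v]`; the isolated vertices of
`G - N[v]` are false twins of `v`, and a case analysis on the adjacencies between `N(v)` and `{c} ∪ L` gives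
a cycle of length 3, 4 or 5 in every case.
-/

namespace Pool.Agent.Results.MP_fb0e57_co.Girth

universe u

variable {V : Type u}

/-- `S` is a dominating set: every vertex lies in `S` or has a neighbour in `S`. -/
def IsDominating (G : SimpleGraph V) (S : Set V) : Prop :=
  ∀ v, v ∈ S ∨ ∃ u ∈ S, G.Adj v u

/-- `S` is a minimal dominating set: no `S \ {v}` with `v ∈ S` is dominating. -/
def IsMinDominating (G : SimpleGraph V) (S : Set V) : Prop :=
  IsDominating G S ∧ ∀ v ∈ S, ¬ IsDominating G (S \ {v})

/-- The reconfiguration graph `R(G)`: its vertices are the minimal dominating sets of `G`. Two of them, `M`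
and `N`, are adjacent if there is a vertex `v` with `N \ M = {v}` and `M \ N ⊆ N(v)`, or with
`M \ N = {v}` and `N \ M ⊆ N(v)`. -/
def reconf (G : SimpleGraph V) : SimpleGraph {S : Set V // IsMinDominating G S} where
  Adj M N := ∃ v, (N.1 \ M.1 = {v} ∧ M.1 \ N.1 ⊆ G.neighborSet v) ∨
    (M.1 \ N.1 = {v} ∧ N.1 \ M.1 ⊆ G.neighborSet v)
  symm := ⟨by
    rintro M N ⟨v, h | h⟩
    · exact ⟨v, Or.inr h⟩
    · exact ⟨v, Or.inl h⟩⟩
  loopless := ⟨by
    rintro M ⟨v, ⟨h, -⟩ | ⟨h, -⟩⟩
    · have : v ∈ M.1 \ M.1 := by rw [h]; rfl
      exact this.2 this.1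
    · have : v ∈ M.1 \ M.1 := by rw [h]; rfl
      exact this.2 this.1⟩

open V11272.GR

theorem of_md {G : SimpleGraph V} {M : Set V} (h : MD G M) : IsMinDominating G M := by
  obtain ⟨h1, h2⟩ := h
  refine ⟨fun v => ?_, ?_⟩
  · rcases h1 v with e | ⟨u, hu, e⟩
    · exact Or.inl e
    · exact Or.inr ⟨u, hu, e.symm⟩
  · intro m hm hd
    obtain ⟨p, -, hp2⟩ := h2 m hm
    rcases hd p with e | ⟨u, hu, e⟩
    · exact e.2 (hp2 p e.1 (Or.inl rfl))
    · exact hu.2 (hp2 u hu.1 (Or.inr e.symm))

theorem step_adj {G : SimpleGraph V} {v : V} {M N : Set V} (h : Step G v M N) :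
    N \ M = {v} ∧ M \ N ⊆ G.neighborSet v := by
  obtain ⟨h1, h2, h3, h4⟩ := h
  refine ⟨?_, ?_⟩
  · ext x
    constructor
    · rintro ⟨a, b⟩
      rcases h3 x a with e | e
      · exact e
      · exact absurd e b
    · rintro rfl
      exact ⟨h1, h2⟩
  · rintro x ⟨a, b⟩
    rcases h4 x a with e | e
    · exact absurd e b
    · exact e

theorem ra_adj {G : SimpleGraph V} {M N : Set V} (h : RA G M N) (hM : IsMinDominating G M)
    (hN : IsMinDominating G N) : (reconf G).Adj ⟨M, hM⟩ ⟨N, hN⟩ := by
  rcases h with ⟨v, h⟩ | ⟨v, h⟩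
  · exact ⟨v, Or.inl (step_adj h)⟩
  · exact ⟨v, Or.inr (step_adj h)⟩

theorem egirth_of_short {G : SimpleGraph V} (h : Short G) : (reconf G).egirth ≤ 5 := by
  rcases h with ⟨A, B, C, a, b, c, ab, bc, ca⟩ | ⟨A, B, C, D, a, b, c, d, ab, bc, cd, da, ac, bd⟩ |
    ⟨A, B, C, D, E, a, b, c, d, e, ab, bc, cd, de, ea, ac, ad, bd, be, ce⟩
  · have h1 := ra_adj ab (of_md a) (of_md b)
    have h2 := ra_adj bc (of_md b) (of_md c)
    have h3 := ra_adj ca (of_md c) (of_md a)
    have n1 := ab.ne
    have n2 := bc.ne
    have n3 := ca.ne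
    let w : (reconf G).Walk ⟨A, of_md a⟩ ⟨A, of_md a⟩ := .cons h1 (.cons h2 (.cons h3 .nil))
    have hw : w.IsCycle := by
      rw [SimpleGraph.Walk.cons_isCycle_iff]
      simp [SimpleGraph.Walk.isPath_def, n1, n2, n3, n1.symm, n2.symm, n3.symm]
    refine (SimpleGraph.egirth_le_length hw).trans ?_
    simp [w]
    norm_num
  · have h1 := ra_adj ab (of_md a) (of_md b)
    have h2 := ra_adj bc (of_md b) (of_md c)
    have h3 := ra_adj cd (of_md c) (of_md d)
    have h4 := ra_adj da (of_md d) (of_md a)
    have n1 := ab.ne
    have n2 := bc.ne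
    have n3 := cd.ne
    have n4 := da.ne
    let w : (reconf G).Walk ⟨A, of_md a⟩ ⟨A, of_md a⟩ :=
      .cons h1 (.cons h2 (.cons h3 (.cons h4 .nil)))
    have hw : w.IsCycle := by
      rw [SimpleGraph.Walk.cons_isCycle_iff]
      simp [SimpleGraph.Walk.isPath_def, n1, n2, n3, n4, n1.symm, n2.symm, n3.symm, n4.symm, ac, bd,
        ac.symm, bd.symm]
    refine (SimpleGraph.egirth_le_length hw).trans ?_
    simp [w]
    norm_num
  · have h1 := ra_adj ab (of_md a) (of_md b)
    have h2 := ra_adj bc (of_md b) (of_md c)
    have h3 := ra_adj cd (of_md c) (of_md d)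
    have h4 := ra_adj de (of_md d) (of_md e)
    have h5 := ra_adj ea (of_md e) (of_md a)
    have n1 := ab.ne
    have n2 := bc.ne
    have n3 := cd.ne
    have n4 := de.ne
    have n5 := ea.ne
    let w : (reconf G).Walk ⟨A, of_md a⟩ ⟨A, of_md a⟩ :=
      .cons h1 (.cons h2 (.cons h3 (.cons h4 (.cons h5 .nil))))
    have hw : w.IsCycle := by
      rw [SimpleGraph.Walk.cons_isCycle_iff]
      simp [SimpleGraph.Walk.isPath_def, n1, n2, n3, n4, n5, n1.symm, n2.symm, n3.symm, n4.symm,
        n5.symm, ac, bd, ad, be, ce, ac.symm, bd.symm, ad.symm, be.symm, ce.symm]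
    refine (SimpleGraph.egirth_le_length hw).trans ?_
    simp [w]

/-- If all edges pass through `c`, a minimal dominating set is determined by whether it contains `c`. -/
theorem star_unique {G : SimpleGraph V} {c : V} (hc : ∀ x y, G.Adj x y → x = c ∨ y = c)
    {M N : Set V} (hM : IsMinDominating G M) (hN : IsMinDominating G N) (h : c ∈ M ↔ c ∈ N) :
    M = N := by
  have key : ∀ {M : Set V}, IsMinDominating G M → ∀ x, x ≠ c →
      (x ∈ M ↔ (G.Adj x c → c ∉ M)) := by
    intro M hM x hx
    constructor
    · intro hxM hxc hcM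
      apply hM.2 x hxM
      intro y
      by_cases hyx : y = x
      · subst hyx
        exact Or.inr ⟨c, ⟨hcM, fun e => hx e.symm⟩, hxc⟩
      · rcases hM.1 y with e | ⟨u, hu, e⟩
        · exact Or.inl ⟨e, hyx⟩
        · by_cases hux : u = x
          · subst hux
            rcases hc y u e with r | r
            · subst r; exact Or.inl ⟨hcM, hyx⟩
            · exact absurd r hx
          · exact Or.inr ⟨u, ⟨hu, hux⟩, e⟩
    · intro hh
      rcases hM.1 x with e | ⟨u, hu, e⟩
      · exact e
      · rcases hc x u e with r | r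
        · exact absurd r hx
        · subst r; exact absurd hu (hh e)
  ext x
  by_cases hx : x = c
  · subst hx; exact h
  · rw [key hM x hx, key hN x hx, h]

theorem acyclic_of_star {G : SimpleGraph V} (h : StarLike G) : (reconf G).IsAcyclic := by
  classical
  intro S w hw
  have hlen := hw.three_le_length
  have hnd := hw.support_nodup
  have hl : 3 ≤ w.support.tail.length := by simpa using hlen
  -- an injection into `Prop`
  have hinj : ∃ f : {S : Set V // IsMinDominating G S} → Prop, Function.Injective f := by
    rcases h with h | ⟨c, hc⟩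
    · refine ⟨fun _ => True, fun M N _ => ?_⟩
      have key : ∀ M : {S : Set V // IsMinDominating G S}, M.1 = Set.univ := by
        intro M
        ext x
        simp only [Set.mem_univ, iff_true]
        rcases M.2.1 x with e | ⟨u, _, e⟩
        · exact e
        · exact absurd e (h x u)
      exact Subtype.ext ((key M).trans (key N).symm)
    · refine ⟨fun M => c ∈ M.1, fun M N hMN => ?_⟩
      exact Subtype.ext (star_unique hc M.2 N.2 (iff_of_eq hMN))
  obtain ⟨f, hf⟩ := hinj
  have h2 := (hnd.map hf).length_le_card
  rw [List.length_map] at h2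
  have h3 : Fintype.card Prop = 2 := by simp
  omega

/-- **Girth of the reconfiguration graph of minimal dominating sets.**  For every finite graph `G`:
if `R(G)` contains a cycle, then it contains a cycle of length at most `5`. Moreover `R(G)` has no cycle
if and only if `G` has no edge or all edges of `G` share a common vertex. -/
theorem result (V : Type u) [Finite V] (G : SimpleGraph V) :
    (¬ (reconf G).IsAcyclic → (reconf G).egirth ≤ 5) ∧
    ((reconf G).IsAcyclic ↔
      ((∀ x y, ¬ G.Adj x y) ∨ ∃ c, ∀ x y, G.Adj x y → x = c ∨ y = c)) := by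
  rcases star_or_short G with h | h
  · have := acyclic_of_star h
    exact ⟨fun e => absurd this e, fun _ => h, fun _ => this⟩
  · have h5 := egirth_of_short h
    refine ⟨fun _ => h5, fun e => ?_, fun e => acyclic_of_star e⟩
    rw [← SimpleGraph.egirth_eq_top] at e
    rw [e] at h5
    exact absurd h5 (by decide)

end Pool.Agent.Results.MP_fb0e57_co.Girth
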